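import Pool.Agent.R178.HC.BaseO

set_option autoImplicit false

namespace Pool.Agent.Results.MP_e057d9_co.OrthHookContent

open Finset Pool.Agent.R153.Sp Pool.Agent.R178.HC

/-- The indeterminate `t` of `ℚ[t]`. -/
noncomputable def t : Polynomial ℚ := Polynomial.X

/-- The polynomial `(t choose 2) = t (t - 1) / 2`. -/
noncomputable def tc : Polynomial ℚ := Polynomial.C (1 / 2) * (t * (t - 1))

/-- The polynomial `(t + 1 choose 2) = t (t + 1) / 2`. -/
noncomputable def tc' : Polynomial ℚ := Polynomial.C (1 / 2) * (t * (t + 1))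

/-- The factor `A_j(x)` of the product (`pw k a` is `(1 - x ^ k) ^ a`). -/
noncomputable def A (j : ℕ) : PowerSeries (Polynomial ℚ) :=
  pw (8 * j) tc * pw (8 * j - 6) (1 - tc) * pw (4 * j - 1) t * pw (4 * j - 3) (-t) *
    pw (8 * j - 4) (tc' - 1) * pw (8 * j - 2) (1 - tc')

/-- `W_O(λ)`, the product over the cells of `(t + c_O) / h`. -/
noncomputable def W (μ : YoungDiagram) : Polynomial ℚ :=
  ∏ c ∈ μ.cells, (t + Polynomial.C (cO μ c)) * Polynomial.C ((hook μ c)⁻¹)

theorem evt_A (s : ℝ) (j : ℕ) : evt s (A j) = Rj s j := by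
  unfold A Rj
  rw [map_mul, map_mul, map_mul, map_mul, map_mul, evt_pw, evt_pw, evt_pw, evt_pw, evt_pw, evt_pw]
  have h1 : Polynomial.aeval s tc = s * (s - 1) / 2 := by
    unfold tc t
    rw [map_mul, map_mul, Polynomial.aeval_C, Polynomial.aeval_X, map_sub, Polynomial.aeval_X,
      map_one]
    norm_num
    ring
  have h2 : Polynomial.aeval s tc' = s * (s + 1) / 2 := by
    unfold tc' t
    rw [map_mul, map_mul, Polynomial.aeval_C, Polynomial.aeval_X, map_add, Polynomial.aeval_X,
      map_one]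
    norm_num
    ring
  have h3 : Polynomial.aeval s t = s := by
    unfold t
    rw [Polynomial.aeval_X]
  rw [map_sub, map_sub, map_sub, map_neg, map_one, h1, h2, h3]

theorem aeval_W (s : ℝ) (μ : YoungDiagram) : Polynomial.aeval s (W μ) = WO s μ := by
  unfold W WO t
  rw [map_prod]
  apply prod_congr rfl
  intro c _
  rw [map_mul, map_add, Polynomial.aeval_X, Polynomial.aeval_C, Polynomial.aeval_C, div_eq_mul_inv,
    map_inv₀]
  simp

/-- For all `M` and all `n < 4 M` the coefficient of `x ^ n` in the product of the first `M` factors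
`A_1(x) ⋯ A_M(x)` is the sum of `W_O(λ)` over the partitions `λ` of `n`. -/
theorem result (n M : ℕ) (h : n < 4 * M) :
    PowerSeries.coeff n (∏ j ∈ range M, A (j + 1)) = ∑ μ ∈ diagrams n, W μ := by
  apply poly_eq_of_infinite (s := Set.range (fun s : ℕ => (s : ℝ)))
    (Set.infinite_range_of_injective Nat.cast_injective)
  rintro _ ⟨s, rfl⟩
  have h1 := qm_eq_iff.1 (main_O s M) n h
  unfold FO at h1
  rw [PowerSeries.coeff_mk] at h1
  simp only
  rw [map_sum, sum_congr rfl (fun μ _ => aeval_W (s : ℝ) μ), h1, ← coeff_evt, map_prod]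
  unfold PP
  rw [prod_congr rfl (fun j _ => evt_A (s : ℝ) (j + 1))]

end Pool.Agent.Results.MP_e057d9_co.OrthHookContent
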